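import Pool.Agent.Helper91.US.Defs2

set_option autoImplicit false
set_option maxSynthPendingDepth 3

/-!
# The third derivative of `∑ M(u(t))` along a curve
-/

namespace Pool.Agent.US

open Finset Filter Topology
open scoped ContDiff

section
variable {n : ℕ}

/-- coordinate functional -/
noncomputable abbrev pj (i : Fin n) : (Fin n → ℝ) →L[ℝ] ℝ :=
  ContinuousLinearMap.proj (R := ℝ) (φ := fun _ : Fin n => ℝ) i

noncomputable def S1 (m : Fin n → ℝ) : (Fin n → ℝ) →L[ℝ] ℝ := ∑ i, Real.log (m i) • pj i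

noncomputable def S2 (m : Fin n → ℝ) : (Fin n → ℝ) →L[ℝ] (Fin n → ℝ) →L[ℝ] ℝ :=
  ∑ i, (m i)⁻¹ • (pj i).smulRight (pj i)

noncomputable def S3 (m : Fin n → ℝ) :
    (Fin n → ℝ) →L[ℝ] (Fin n → ℝ) →L[ℝ] (Fin n → ℝ) →L[ℝ] ℝ :=
  ∑ i, (-(m i ^ 2)⁻¹) • (pj i).smulRight ((pj i).smulRight (pj i))

theorem S1_apply (m a : Fin n → ℝ) : S1 m a = ∑ i, Real.log (m i) * a i := by
  simp [S1]

theorem S2_apply (m a b : Fin n → ℝ) : S2 m a b = ∑ i, (m i)⁻¹ * (a i * b i) := by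
  simp [S2]

theorem S3_apply (m a b c : Fin n → ℝ) :
    S3 m a b c = ∑ i, -(m i ^ 2)⁻¹ * (a i * (b i * c i)) := by
  simp [S3]

theorem hasFDerivAt_pj (i : Fin n) (m : Fin n → ℝ) :
    HasFDerivAt (fun m : Fin n → ℝ => m i) (pj i) m :=
  (pj i).hasFDerivAt

theorem hasFDerivAt_S0 {m : Fin n → ℝ} (hm : ∀ i, 0 < m i) :
    HasFDerivAt (fun m : Fin n → ℝ => ∑ i, (m i * Real.log (m i) - m i)) (S1 m) m := by
  have : ∀ i ∈ (univ : Finset (Fin n)), HasFDerivAt
      (fun m : Fin n → ℝ => (m i * Real.log (m i) - m i)) (Real.log (m i) • pj i) m := by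
    intro i _
    have h1 := (Real.hasDerivAt_mul_log (hm i).ne').sub (hasDerivAt_id (m i))
    have h2 := h1.comp_hasFDerivAt m (hasFDerivAt_pj i m)
    have e : (Real.log (m i) + 1 - 1) • pj i = Real.log (m i) • pj i := by
      rw [add_sub_cancel_right]
    rw [e] at h2
    exact h2
  exact HasFDerivAt.fun_sum this

theorem hasFDerivAt_S1 {m : Fin n → ℝ} (hm : ∀ i, 0 < m i) :
    HasFDerivAt (S1 (n := n)) (S2 m) m := by
  have : ∀ i ∈ (univ : Finset (Fin n)), HasFDerivAt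
      (fun m : Fin n → ℝ => Real.log (m i) • pj i) ((m i)⁻¹ • (pj i).smulRight (pj i)) m := by
    intro i _
    have h1 := (Real.hasDerivAt_log (hm i).ne')
    have h2 := (h1.comp_hasFDerivAt m (hasFDerivAt_pj i m)).smul_const (pj i)
    have e : ((m i)⁻¹ • pj i).smulRight (pj i) = (m i)⁻¹ • (pj i).smulRight (pj i) := by
      ext a b; simp [mul_assoc]
    rw [e] at h2
    exact h2
  exact HasFDerivAt.fun_sum this

theorem hasFDerivAt_S2 {m : Fin n → ℝ} (hm : ∀ i, 0 < m i) :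
    HasFDerivAt (S2 (n := n)) (S3 m) m := by
  have : ∀ i ∈ (univ : Finset (Fin n)), HasFDerivAt
      (fun m : Fin n → ℝ => (m i)⁻¹ • (pj i).smulRight (pj i))
      ((-(m i ^ 2)⁻¹) • (pj i).smulRight ((pj i).smulRight (pj i))) m := by
    intro i _
    have h1 := (hasDerivAt_inv (hm i).ne')
    have h2 := (h1.comp_hasFDerivAt m (hasFDerivAt_pj i m)).smul_const ((pj i).smulRight (pj i))
    have e : ((-(m i ^ 2)⁻¹) • pj i).smulRight ((pj i).smulRight (pj i)) =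
        (-(m i ^ 2)⁻¹) • (pj i).smulRight ((pj i).smulRight (pj i)) := by
      ext a b; simp [mul_assoc]
    rw [e] at h2
    exact h2
  exact HasFDerivAt.fun_sum this

theorem isOpen_orth (n : ℕ) : IsOpen {m : Fin n → ℝ | ∀ i, 0 < m i} := by
  rw [Set.ofPred_forall]
  exact isOpen_iInter_of_finite fun i => isOpen_lt continuous_const (continuous_apply i)

theorem good_contDiffAt {Φ : (Fin n → ℝ) → ℝ} {C : ℝ} (hG : Good n Φ C) {m : Fin n → ℝ}
    (hm : ∀ i, 0 < m i) : ContDiffAt ℝ ∞ Φ m :=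
  hG.smooth.contDiffAt ((isOpen_orth n).mem_nhds hm)

theorem good_contDiffAt1 {Φ : (Fin n → ℝ) → ℝ} {C : ℝ} (hG : Good n Φ C) {m : Fin n → ℝ}
    (hm : ∀ i, 0 < m i) : ContDiffAt ℝ ∞ (fderiv ℝ Φ) m :=
  (good_contDiffAt hG hm).fderiv_right (by simp)

theorem good_contDiffAt2 {Φ : (Fin n → ℝ) → ℝ} {C : ℝ} (hG : Good n Φ C) {m : Fin n → ℝ}
    (hm : ∀ i, 0 < m i) : ContDiffAt ℝ ∞ (fderiv ℝ (fderiv ℝ Φ)) m :=
  (good_contDiffAt1 hG hm).fderiv_right (by simp)

theorem good_hasFDerivAt {Φ : (Fin n → ℝ) → ℝ} {C : ℝ} (hG : Good n Φ C) {m : Fin n → ℝ}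
    (hm : ∀ i, 0 < m i) : HasFDerivAt Φ (fderiv ℝ Φ m) m :=
  ((good_contDiffAt hG hm).differentiableAt (by simp)).hasFDerivAt

theorem good_hasFDerivAt1 {Φ : (Fin n → ℝ) → ℝ} {C : ℝ} (hG : Good n Φ C) {m : Fin n → ℝ}
    (hm : ∀ i, 0 < m i) : HasFDerivAt (fderiv ℝ Φ) (fderiv ℝ (fderiv ℝ Φ) m) m :=
  ((good_contDiffAt1 hG hm).differentiableAt (by simp)).hasFDerivAt

theorem good_hasFDerivAt2 {Φ : (Fin n → ℝ) → ℝ} {C : ℝ} (hG : Good n Φ C) {m : Fin n → ℝ}
    (hm : ∀ i, 0 < m i) : HasFDerivAt (fderiv ℝ (fderiv ℝ Φ))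
      (fderiv ℝ (fderiv ℝ (fderiv ℝ Φ)) m) m :=
  ((good_contDiffAt2 hG hm).differentiableAt (by simp)).hasFDerivAt

theorem fderiv_PP {Φ : (Fin n → ℝ) → ℝ} {C β : ℝ} (hG : Good n Φ C) {m : Fin n → ℝ}
    (hm : ∀ i, 0 < m i) : fderiv ℝ (PP β n Φ) m = S1 m + β • fderiv ℝ Φ m := by
  have := (hasFDerivAt_S0 hm).add ((good_hasFDerivAt hG hm).const_smul β)
  exact this.fderiv

theorem good_symm {Φ : (Fin n → ℝ) → ℝ} {C : ℝ} (hG : Good n Φ C) {m : Fin n → ℝ}
    (hm : ∀ i, 0 < m i) (a b : Fin n → ℝ) :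
    fderiv ℝ (fderiv ℝ Φ) m a b = fderiv ℝ (fderiv ℝ Φ) m b a := by
  have h := (good_contDiffAt hG hm).isSymmSndFDerivAt
    (by rw [minSmoothness_of_isRCLikeNormedField]; exact WithTop.coe_le_coe.2 le_top)
  exact h a b

/-- the gradient is homogeneous of degree `0` -/
theorem good_fderiv_smul {Φ : (Fin n → ℝ) → ℝ} {C : ℝ} (hG : Good n Φ C) {m : Fin n → ℝ}
    (hm : ∀ i, 0 < m i) {t : ℝ} (ht : 0 < t) : fderiv ℝ Φ (t • m) = fderiv ℝ Φ m := by
  have htm : ∀ i, 0 < (t • m) i := fun i => mul_pos ht (hm i)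
  have h1 : HasFDerivAt (fun m : Fin n → ℝ => Φ (t • m))
      ((fderiv ℝ Φ (t • m)).comp (t • ContinuousLinearMap.id ℝ (Fin n → ℝ))) m := by
    have := good_hasFDerivAt hG htm
    exact this.comp m ((hasFDerivAt_id m).const_smul t)
  have h2 : HasFDerivAt (fun m : Fin n → ℝ => Φ (t • m)) (t • fderiv ℝ Φ m) m := by
    have h3 := (good_hasFDerivAt hG hm).const_smul t
    refine h3.congr_of_eventuallyEq ?_
    filter_upwards [(isOpen_orth n).mem_nhds hm] with m' hm'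
    exact hG.hom m' (fun i => (hm' i).le) t ht.le
  have h3 := h1.unique h2
  ext a
  have h4 := congrArg (fun L : (Fin n → ℝ) →L[ℝ] ℝ => L a) h3
  simp only [ContinuousLinearMap.comp_apply, smul_apply,
    ContinuousLinearMap.id_apply, map_smul, smul_eq_mul] at h4
  exact mul_left_cancel₀ ht.ne' h4

/-- Euler: the second derivative kills the radial direction -/
theorem good_euler2 {Φ : (Fin n → ℝ) → ℝ} {C : ℝ} (hG : Good n Φ C) {m : Fin n → ℝ}
    (hm : ∀ i, 0 < m i) : fderiv ℝ (fderiv ℝ Φ) m m = 0 := by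
  have h1 : HasDerivAt (fun t : ℝ => fderiv ℝ Φ (t • m)) (fderiv ℝ (fderiv ℝ Φ) m m) 1 := by
    have h2 : HasDerivAt (fun t : ℝ => t • m) m 1 := by
      simpa using (hasDerivAt_id (1 : ℝ)).smul_const m
    have h3 : HasFDerivAt (fderiv ℝ Φ) (fderiv ℝ (fderiv ℝ Φ) m) ((1 : ℝ) • m) := by
      rw [one_smul]; exact good_hasFDerivAt1 hG hm
    exact h3.comp_hasDerivAt (1 : ℝ) h2
  have h4 : HasDerivAt (fun t : ℝ => fderiv ℝ Φ (t • m)) 0 1 := by
    refine (hasDerivAt_const (1 : ℝ) (fderiv ℝ Φ m)).congr_of_eventuallyEq ?_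
    filter_upwards [lt_mem_nhds (zero_lt_one (α := ℝ))] with t ht
    exact good_fderiv_smul hG hm ht
  exact h1.unique h4

/-- **third derivative of the Legendre transform along a curve** -/
theorem leg_third {n : ℕ} {Φ : (Fin n → ℝ) → ℝ} {C β : ℝ} (hG : Good n Φ C) (hβ : 0 ≤ β)
    (hβC : β * C ≤ 1 / 3) {M : (Fin n → ℝ) → (Fin n → ℝ)} (hM : IsLeg β n Φ M)
    (u : ℝ → Fin n → ℝ) (hu : ContDiff ℝ 3 u) (t₀ : ℝ) (a : Fin n → ℝ) (ha : ∀ i, 0 ≤ a i)
    (h1 : ∀ i, |iteratedDeriv 1 (fun t => u t i) t₀| ≤ a i)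
    (h2 : ∀ i, |iteratedDeriv 2 (fun t => u t i) t₀| ≤ a i ^ 2)
    (h3 : ∀ i, |iteratedDeriv 3 (fun t => u t i) t₀| ≤ a i ^ 3) :
    |iteratedDeriv 3 (fun t => ∑ i, M (u t) i) t₀| ≤ 100 * ∑ i, M (u t₀) i * a i ^ 3 := by
  -- the curve and its derivatives
  set m : ℝ → Fin n → ℝ := fun t => M (u t) with hmdef
  have hm3 : ContDiff ℝ 3 m := (hM.smooth.of_le (WithTop.coe_le_coe.2 le_top)).comp hu
  have hpos : ∀ t i, 0 < m t i := fun t i => hM.pos _ _
  set u1 := deriv u with hu1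
  set u2 := deriv u1 with hu2
  set u3 := deriv u2 with hu3
  set m1 := deriv m with hm1
  set m2 := deriv m1 with hm2
  have hu' : ContDiff ℝ (2 + 1) u := hu
  have cu1 : ContDiff ℝ 2 u1 := (contDiff_succ_iff_deriv.1 hu').2.2
  have cu1' : ContDiff ℝ (1 + 1) u1 := by norm_num; exact cu1
  have cu2 : ContDiff ℝ 1 u2 := (contDiff_succ_iff_deriv.1 cu1').2.2
  have hm' : ContDiff ℝ (2 + 1) m := hm3
  have cm1 : ContDiff ℝ 2 m1 := (contDiff_succ_iff_deriv.1 hm').2.2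
  have du : ∀ t, HasDerivAt u (u1 t) t := fun t =>
    (hu.differentiable (by norm_num) t).hasDerivAt
  have du1 : ∀ t, HasDerivAt u1 (u2 t) t := fun t =>
    (cu1.differentiable (by norm_num) t).hasDerivAt
  have du2 : ∀ t, HasDerivAt u2 (u3 t) t := fun t =>
    (cu2.differentiable (by norm_num) t).hasDerivAt
  have dm : ∀ t, HasDerivAt m (m1 t) t := fun t =>
    (hm3.differentiable (by norm_num) t).hasDerivAt
  have dm1 : ∀ t, HasDerivAt m1 (m2 t) t := fun t =>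
    (cm1.differentiable (by norm_num) t).hasDerivAt
  -- coordinates
  have cdu : ∀ t i, HasDerivAt (fun t => u t i) (u1 t i) t := fun t => hasDerivAt_pi.1 (du t)
  have cdu1 : ∀ t i, HasDerivAt (fun t => u1 t i) (u2 t i) t := fun t => hasDerivAt_pi.1 (du1 t)
  have cdu2 : ∀ t i, HasDerivAt (fun t => u2 t i) (u3 t i) t := fun t => hasDerivAt_pi.1 (du2 t)
  have cdm : ∀ t i, HasDerivAt (fun t => m t i) (m1 t i) t := fun t => hasDerivAt_pi.1 (dm t)
  have cdm1 : ∀ t i, HasDerivAt (fun t => m1 t i) (m2 t i) t := fun t => hasDerivAt_pi.1 (dm1 t)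
  have e1 : ∀ i, deriv (fun t => u t i) = fun t => u1 t i := fun i => funext fun t => (cdu t i).deriv
  have e2 : ∀ i, deriv (fun t => u1 t i) = fun t => u2 t i :=
    fun i => funext fun t => (cdu1 t i).deriv
  have e3 : ∀ i, deriv (fun t => u2 t i) = fun t => u3 t i :=
    fun i => funext fun t => (cdu2 t i).deriv
  have h1' : ∀ i, |u1 t₀ i| ≤ a i := by
    intro i; have := h1 i; rwa [iteratedDeriv_one, e1] at this
  have h2' : ∀ i, |u2 t₀ i| ≤ a i ^ 2 := by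
    intro i; have := h2 i; rwa [iteratedDeriv_succ, iteratedDeriv_one, e1, e2] at this
  have h3' : ∀ i, |u3 t₀ i| ≤ a i ^ 3 := by
    intro i
    have := h3 i
    rwa [iteratedDeriv_succ, iteratedDeriv_succ, iteratedDeriv_one, e1, e2, e3] at this
  -- (F)
  have F0 : ∀ t, S1 (m t) + β • fderiv ℝ Φ (m t) = ∑ i, u t i • pj i := by
    intro t
    rw [← fderiv_PP hG (hpos t)]
    ext b
    rw [hM.crit]
    simp
  -- (F1)
  have F1 : ∀ t, S2 (m t) (m1 t) + β • fderiv ℝ (fderiv ℝ Φ) (m t) (m1 t) =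
      ∑ i, u1 t i • pj i := by
    intro t
    have A := ((hasFDerivAt_S1 (hpos t)).comp_hasDerivAt t (dm t)).add
      (((good_hasFDerivAt1 hG (hpos t)).comp_hasDerivAt t (dm t)).const_smul β)
    have B : HasDerivAt (fun t => ∑ i, u t i • pj i) (∑ i, u1 t i • pj i) t :=
      HasDerivAt.fun_sum fun i _ => (cdu t i).smul_const (pj i)
    exact A.unique (B.congr_of_eventuallyEq (Eventually.of_forall fun s => F0 s))
  -- (F2)
  have F2 : ∀ t, (S3 (m t) (m1 t) (m1 t) + S2 (m t) (m2 t)) +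
      β • (fderiv ℝ (fderiv ℝ (fderiv ℝ Φ)) (m t) (m1 t) (m1 t) +
        fderiv ℝ (fderiv ℝ Φ) (m t) (m2 t)) = ∑ i, u2 t i • pj i := by
    intro t
    have A := (((hasFDerivAt_S2 (hpos t)).comp_hasDerivAt t (dm t)).clm_apply (dm1 t)).add
      ((((good_hasFDerivAt2 hG (hpos t)).comp_hasDerivAt t (dm t)).clm_apply (dm1 t)).const_smul β)
    have B : HasDerivAt (fun t => ∑ i, u1 t i • pj i) (∑ i, u2 t i • pj i) t :=
      HasDerivAt.fun_sum fun i _ => (cdu1 t i).smul_const (pj i)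
    exact A.unique (B.congr_of_eventuallyEq (Eventually.of_forall fun s => F1 s))
  -- scalar forms
  have F1s : ∀ t b, S2 (m t) (m1 t) b + β * fderiv ℝ (fderiv ℝ Φ) (m t) (m1 t) b =
      ∑ i, u1 t i * b i := by
    intro t b
    have := congrArg (fun L : (Fin n → ℝ) →L[ℝ] ℝ => L b) (F1 t)
    simpa using this
  have F2s : ∀ t b, (S3 (m t) (m1 t) (m1 t) b + S2 (m t) (m2 t) b) +
      β * (fderiv ℝ (fderiv ℝ (fderiv ℝ Φ)) (m t) (m1 t) (m1 t) b +
        fderiv ℝ (fderiv ℝ Φ) (m t) (m2 t) b) = ∑ i, u2 t i * b i := by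
    intro t b
    have := congrArg (fun L : (Fin n → ℝ) →L[ℝ] ℝ => L b) (F2 t)
    simpa [mul_add] using this
  -- the first derivative of the sum
  have N1 : ∀ t, ∑ i, m1 t i = ∑ i, m t i * u1 t i := by
    intro t
    have A := F1s t (m t)
    rw [good_symm hG (hpos t), good_euler2 hG (hpos t), S2_apply] at A
    simp only [zero_apply, mul_zero, add_zero] at A
    rw [show ∑ i, m t i * u1 t i = ∑ i, u1 t i * m t i from sum_congr rfl fun i _ => mul_comm _ _,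
      ← A]
    refine sum_congr rfl fun i _ => ?_
    have := (hpos t i).ne'
    field_simp
  have d1 : deriv (fun t => ∑ i, m t i) = fun t => ∑ i, m t i * u1 t i := by
    funext t
    rw [← N1 t]
    exact (HasDerivAt.fun_sum fun i _ => cdm t i).deriv
  have d2 : deriv (fun t => ∑ i, m t i * u1 t i) =
      fun t => ∑ i, (m1 t i * u1 t i + m t i * u2 t i) := by
    funext t
    exact (HasDerivAt.fun_sum fun i _ => (cdm t i).mul (cdu1 t i)).deriv
  have d3 : deriv (fun t => ∑ i, (m1 t i * u1 t i + m t i * u2 t i)) t₀ =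
      ∑ i, ((m2 t₀ i * u1 t₀ i + m1 t₀ i * u2 t₀ i) + (m1 t₀ i * u2 t₀ i + m t₀ i * u3 t₀ i)) :=
    (HasDerivAt.fun_sum fun i _ => ((cdm1 t₀ i).mul (cdu1 t₀ i)).add
      ((cdm t₀ i).mul (cdu2 t₀ i))).deriv
  have hN : iteratedDeriv 3 (fun t => ∑ i, M (u t) i) t₀ =
      ∑ i, ((m2 t₀ i * u1 t₀ i + m1 t₀ i * u2 t₀ i) + (m1 t₀ i * u2 t₀ i + m t₀ i * u3 t₀ i)) := by
    rw [iteratedDeriv_succ, iteratedDeriv_succ, iteratedDeriv_one]
    show deriv (deriv (deriv (fun t => ∑ i, m t i))) t₀ = _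
    rw [d1, d2, d3]
  rw [hN]
  -- abbreviations at `t₀`
  have hp := hpos t₀
  set x := m t₀ with hx
  set x1 := m1 t₀ with hx1
  set x2 := m2 t₀ with hx2
  set g : Fin n → ℝ := fun i => x1 i / x i with hg
  have hxg : x1 = fun i => x i * g i := by
    funext i
    have := (hp i).ne'
    simp only [hg]
    field_simp
  -- P''' term
  have A1 := F1s t₀ x2
  have A2 := F2s t₀ x1
  have symS : S2 x x1 x2 = S2 x x2 x1 := by
    rw [S2_apply, S2_apply]
    exact sum_congr rfl fun i _ => by ring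
  have symP := good_symm hG hp x1 x2
  -- the third derivative of Φ and `S`
  set T := fderiv ℝ (fderiv ℝ (fderiv ℝ Φ)) x x1 x1 x1 with hT
  have hTb : |T| ≤ C * ∑ i, x i * |g i| ^ 3 := by
    have := hG.c3 x hp g
    rw [hT, hxg]
    exact this
  have hS3 : S3 x x1 x1 x1 = - ∑ i, x i * g i ^ 3 := by
    rw [S3_apply, hxg, ← sum_neg_distrib]
    refine sum_congr rfl fun i _ => ?_
    have := (hp i).ne'
    field_simp
  have hS3b : |S3 x x1 x1 x1| ≤ ∑ i, x i * |g i| ^ 3 := by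
    rw [hS3, abs_neg]
    refine (abs_sum_le_sum_abs _ _).trans (sum_le_sum fun i _ => ?_)
    rw [abs_mul, abs_pow, abs_of_pos (hp i)]
  set Q := ∑ i, x i * |g i| ^ 3 with hQ
  set R := ∑ i, x i * a i ^ 3 with hR
  have hQ0 : 0 ≤ Q := sum_nonneg fun i _ => mul_nonneg (hp i).le (by positivity)
  -- `Q ≤ 4 R`
  have hQR : Q ≤ 4 * R := by
    have B := F1s t₀ (fun i => x i * (g i * |g i|))
    have B1 : S2 x x1 (fun i => x i * (g i * |g i|)) = Q := by
      rw [S2_apply, hxg, hQ]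
      refine sum_congr rfl fun i _ => ?_
      have h0 := (hp i).ne'
      have h5 : |g i| ^ 3 = g i * (g i * |g i|) := by
        rw [pow_succ, sq_abs]; ring
      rw [h5]
      field_simp
    have B2 : |fderiv ℝ (fderiv ℝ Φ) x x1 (fun i => x i * (g i * |g i|))| ≤ C * Q := by
      have := hG.h3 x hp g
      rw [hxg]
      exact this
    have B3 : ∑ i, u1 t₀ i * (x i * (g i * |g i|)) ≤ ∑ i, x i * (a i * |g i| ^ 2) := by
      refine sum_le_sum fun i _ => ?_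
      have h5 : u1 t₀ i * (x i * (g i * |g i|)) ≤ |u1 t₀ i * (x i * (g i * |g i|))| := le_abs_self _
      rw [abs_mul, abs_mul, abs_mul, abs_abs, abs_of_pos (hp i)] at h5
      have h6 : |u1 t₀ i| * (x i * (|g i| * |g i|)) ≤ a i * (x i * (|g i| * |g i|)) :=
        mul_le_mul_of_nonneg_right (h1' i) (mul_nonneg (hp i).le (by positivity))
      calc _ ≤ _ := h5
        _ ≤ _ := h6
        _ = _ := by ring
    have B4 : ∑ i, x i * (a i * |g i| ^ 2) ≤ 1 / 3 * Q + 4 / 3 * R := by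
      rw [hQ, hR, mul_sum, mul_sum, ← sum_add_distrib]
      refine sum_le_sum fun i _ => ?_
      have h5 : a i * |g i| ^ 2 ≤ 1 / 3 * |g i| ^ 3 + 4 / 3 * a i ^ 3 := by
        have h6 := abs_nonneg (g i)
        have h7 := ha i
        nlinarith [mul_nonneg h6 (sq_nonneg (|g i| - 2 * a i)),
          mul_nonneg h7 (sq_nonneg (|g i| - 2 * a i))]
      have h6 := mul_le_mul_of_nonneg_left h5 (hp i).le
      linarith
    have B5 : β * |fderiv ℝ (fderiv ℝ Φ) x x1 (fun i => x i * (g i * |g i|))| ≤ 1 / 3 * Q := by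
      calc _ ≤ β * (C * Q) := mul_le_mul_of_nonneg_left B2 hβ
        _ = (β * C) * Q := by ring
        _ ≤ 1 / 3 * Q := mul_le_mul_of_nonneg_right hβC hQ0
    have B6 : -(β * |fderiv ℝ (fderiv ℝ Φ) x x1 (fun i => x i * (g i * |g i|))|) ≤
        β * fderiv ℝ (fderiv ℝ Φ) x x1 (fun i => x i * (g i * |g i|)) := by
      have := mul_le_mul_of_nonneg_left
        (neg_abs_le (fderiv ℝ (fderiv ℝ Φ) x x1 (fun i => x i * (g i * |g i|)))) hβ
      linarith
    rw [← hx, ← hx1, B1] at B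
    linarith
  -- the value of the third derivative
  have hval : ∑ i, ((x2 i * u1 t₀ i + x1 i * u2 t₀ i) + (x1 i * u2 t₀ i + x i * u3 t₀ i)) =
      3 * ∑ i, x1 i * u2 t₀ i - (S3 x x1 x1 x1 + β * T) + ∑ i, x i * u3 t₀ i := by
    have C1 : ∑ i, x2 i * u1 t₀ i = ∑ i, u1 t₀ i * x2 i := sum_congr rfl fun i _ => mul_comm _ _
    have C2 : ∑ i, x1 i * u2 t₀ i = ∑ i, u2 t₀ i * x1 i := sum_congr rfl fun i _ => mul_comm _ _
    rw [sum_add_distrib, sum_add_distrib, sum_add_distrib, C1, C2, ← A1, ← A2, ← hx, ← hx1, ← hx2,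
      symS, symP]
    ring
  rw [hval]
  have b1 : |3 * ∑ i, x1 i * u2 t₀ i| ≤ Q + 2 * R := by
    rw [abs_mul, abs_of_pos (by norm_num : (0 : ℝ) < 3), mul_comm]
    calc _ ≤ (∑ i, |x1 i * u2 t₀ i|) * 3 :=
          mul_le_mul_of_nonneg_right (abs_sum_le_sum_abs _ _) (by norm_num)
      _ ≤ Q + 2 * R := by
        rw [hQ, hR, sum_mul, mul_sum, ← sum_add_distrib]
        refine sum_le_sum fun i _ => ?_
        have h5 : |x1 i| = x i * |g i| := by
          rw [hxg]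
          simp only
          rw [abs_mul, abs_of_pos (hp i)]
        rw [abs_mul, h5]
        have h6 := abs_nonneg (g i)
        have h7 := ha i
        have h8 : |g i| * a i ^ 2 * 3 ≤ |g i| ^ 3 + 2 * a i ^ 3 := by
          nlinarith [mul_nonneg (add_nonneg h6 (mul_nonneg zero_le_two h7))
            (sq_nonneg (|g i| - a i))]
        have h9 : x i * |g i| * |u2 t₀ i| * 3 ≤ x i * |g i| * a i ^ 2 * 3 :=
          mul_le_mul_of_nonneg_right (mul_le_mul_of_nonneg_left (h2' i)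
            (mul_nonneg (hp i).le h6)) (by norm_num)
        have h10 := mul_le_mul_of_nonneg_left h8 (hp i).le
        linarith
  have b2 : |S3 x x1 x1 x1 + β * T| ≤ 4 / 3 * Q := by
    have : |β * T| ≤ 1 / 3 * Q := by
      rw [abs_mul, abs_of_nonneg hβ]
      calc _ ≤ β * (C * Q) := mul_le_mul_of_nonneg_left hTb hβ
        _ = (β * C) * Q := by ring
        _ ≤ 1 / 3 * Q := mul_le_mul_of_nonneg_right hβC hQ0
    calc _ ≤ |S3 x x1 x1 x1| + |β * T| := abs_add_le _ _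
      _ ≤ _ := by linarith
  have b3 : |∑ i, x i * u3 t₀ i| ≤ R := by
    refine (abs_sum_le_sum_abs _ _).trans (sum_le_sum fun i _ => ?_)
    rw [abs_mul, abs_of_pos (hp i)]
    exact mul_le_mul_of_nonneg_left (h3' i) (hp i).le
  have b4 := abs_add_le (3 * ∑ i, x1 i * u2 t₀ i - (S3 x x1 x1 x1 + β * T)) (∑ i, x i * u3 t₀ i)
  have b5 := abs_sub (3 * ∑ i, x1 i * u2 t₀ i) (S3 x x1 x1 x1 + β * T)
  linarith

end

end Pool.Agent.US
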